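import Pool.Agent.Q32.SK.Stm

/-! Project SK (helper32): bookkeeping. -/

set_option autoImplicit false

namespace Pool.Agent.Q184.SK

open Function Q32.SK

theorem book : S_BOOK := by
  intro Ob Hom idm cmp T hT done Q hQid hperf A₀
  choose enc henc using fun X : Ob => exists_injective_nat (T X)
  -- the states
  have step : ∀ (s : Σ B : Ob, List (Σ X : Ob, Hom X B)) (t : ℕ), ∃ (C : Ob) (f : Hom s.1 C), Q f ∧
      ∀ (p : Σ X : Ob, Hom X s.1) (τ : T p.1), s.2[(Nat.unpair t).1]? = some p →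
        enc p.1 τ = (Nat.unpair t).2 → done (cmp p.2 f) τ := by
    intro s t
    by_cases h : ∃ (p : Σ X : Ob, Hom X s.1) (τ : T p.1), s.2[(Nat.unpair t).1]? = some p ∧
        enc p.1 τ = (Nat.unpair t).2
    · obtain ⟨p, τ, h1, h2⟩ := h
      obtain ⟨C, f, hf, hd⟩ := hperf p.2 τ
      refine ⟨C, f, hf, fun p' τ' h1' h2' => ?_⟩
      rw [h1, Option.some_inj] at h1'
      subst h1'
      have : τ' = τ := henc _ (h2'.trans h2.symm)
      rw [this]
      exact hd
    · push Not at h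
      exact ⟨s.1, idm s.1, hQid _, fun p τ h1 h2 => absurd h2 (h p τ h1)⟩
  choose C f hQ hstep using step
  let st : ℕ → Σ B : Ob, List (Σ X : Ob, Hom X B) := fun n =>
    Nat.rec (motive := fun _ => Σ B : Ob, List (Σ X : Ob, Hom X B)) ⟨A₀, [⟨A₀, idm A₀⟩]⟩
      (fun n s => ⟨C s n, s.2.map (fun p => ⟨p.1, cmp p.2 (f s n)⟩) ++ [⟨C s n, idm (C s n)⟩]⟩) n
  let A : ℕ → Ob := fun n => (st n).1
  let e : ∀ n, Hom (A n) (A (n + 1)) := fun n => f (st n) n
  have hlen : ∀ n, (st n).2.length = n + 1 := by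
    intro n
    induction n with
    | zero => rfl
    | succ n ih =>
      show ((st n).2.map (fun p : Σ X : Ob, Hom X (st n).1 =>
        (⟨p.1, cmp p.2 (f (st n) n)⟩ : Σ X : Ob, Hom X (C (st n) n))) ++
        [(⟨C (st n) n, idm (C (st n) n)⟩ : Σ X : Ob, Hom X (C (st n) n))]).length = n + 1 + 1
      rw [List.length_append, List.length_map, ih]
      rfl
  have hlast : ∀ n, (st n).2[n]? = some ⟨A n, idm (A n)⟩ := by
    intro n
    cases n with
    | zero => rfl
    | succ n =>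
      show ((st n).2.map (fun p : Σ X : Ob, Hom X (st n).1 =>
        (⟨p.1, cmp p.2 (f (st n) n)⟩ : Σ X : Ob, Hom X (C (st n) n))) ++
        [(⟨C (st n) n, idm (C (st n) n)⟩ : Σ X : Ob, Hom X (C (st n) n))])[n + 1]? =
          some (⟨C (st n) n, idm (C (st n) n)⟩ : Σ X : Ob, Hom X (C (st n) n))
      rw [List.getElem?_append_right (by rw [List.length_map, hlen]), List.length_map, hlen]
      simp
  have hcomp : ∀ n m, (st (n + m)).2[n]? = some ⟨A n, cto idm cmp A e n m⟩ := by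
    intro n m
    induction m with
    | zero => exact hlast n
    | succ m ih =>
      show ((st (n + m)).2.map (fun p : Σ X : Ob, Hom X (st (n + m)).1 =>
        (⟨p.1, cmp p.2 (f (st (n + m)) (n + m))⟩ : Σ X : Ob, Hom X (C (st (n + m)) (n + m)))) ++
        [(⟨C (st (n + m)) (n + m), idm (C (st (n + m)) (n + m))⟩ :
          Σ X : Ob, Hom X (C (st (n + m)) (n + m)))])[n]? =
          some (⟨A n, cmp (cto idm cmp A e n m) (e (n + m))⟩ : Σ X : Ob, Hom X (C (st (n + m)) (n + m)))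
      rw [List.getElem?_append_left (by rw [List.length_map, hlen]; omega), List.getElem?_map, ih]
      rfl
  refine ⟨A, e, rfl, fun n => hQ _ _, fun n τ => ?_⟩
  obtain ⟨m, hm⟩ : ∃ m, Nat.pair n (enc (A n) τ) = n + m :=
    ⟨Nat.pair n (enc (A n) τ) - n, by have := Nat.left_le_pair n (enc (A n) τ); omega⟩
  refine ⟨m + 1, ?_⟩
  have h1 : (Nat.unpair (n + m)).1 = n := by rw [← hm, Nat.unpair_pair]
  have h2 : (Nat.unpair (n + m)).2 = enc (A n) τ := by rw [← hm, Nat.unpair_pair]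
  exact hstep (st (n + m)) (n + m) ⟨A n, cto idm cmp A e n m⟩ τ (by rw [h1]; exact hcomp n m) h2.symm

end Pool.Agent.Q184.SK
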