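import Pool.Agent.Q32.SK.Stm

/-! Project SK (helper32): free finite sets, and new free orbits keep `Good`. -/

set_option autoImplicit false

namespace Pool.Agent.Q184.SK

open Function Q32.SK

section
variable {H X Y : Type} [Group H] [MulAction H X] [MulAction H Y]

theorem smul_inj_free (hX : ∀ (h : H) (x : X), h • x = x → h = 1) {a b : H} {x : X}
    (h : a • x = b • x) : a = b := by
  have h1 : (b⁻¹ * a) • x = x := by rw [mul_smul, h, inv_smul_smul]
  have h2 := hX _ _ h1
  rw [inv_mul_eq_one] at h2
  exact h2.symm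

theorem equiv_lift (hX : ∀ (h : H) (x : X), h • x = x → h = 1)
    (α : MulAction.orbitRel.Quotient H X → Y) :
    ∃ (ψ : X → Y) (c : X → H), (∀ (h : H) (x : X), ψ (h • x) = h • ψ x) ∧
      (∀ x, c x • (Quotient.out (Quotient.mk (MulAction.orbitRel H X) x) : X) = x) ∧
      ∀ x, ψ x = c x • α (Quotient.mk (MulAction.orbitRel H X) x) := by
  have h1 : ∀ x : X, ∃ c : H, c • (Quotient.out (Quotient.mk (MulAction.orbitRel H X) x) : X) = x := by
    intro x
    have h2 : (MulAction.orbitRel H X).r (Quotient.out (Quotient.mk (MulAction.orbitRel H X) x)) x :=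
      Quotient.exact (Quotient.out_eq _)
    have h3 := (MulAction.orbitRel H X).symm h2
    obtain ⟨c, hc⟩ := h3
    exact ⟨c, hc⟩
  choose c hc using h1
  refine ⟨fun x => c x • α (Quotient.mk (MulAction.orbitRel H X) x), c, ?_, hc, fun x => rfl⟩
  intro h x
  have h2 : (Quotient.mk (MulAction.orbitRel H X) (h • x)) = Quotient.mk (MulAction.orbitRel H X) x :=
    Quotient.sound ⟨h, rfl⟩
  have h3 : c (h • x) = h * c x := by
    have h4 := hc (h • x)
    rw [h2] at h4
    refine smul_inj_free hX (x := (Quotient.out (Quotient.mk (MulAction.orbitRel H X) x) : X)) ?_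
    rw [h4, mul_smul, hc]
  show c (h • x) • α (Quotient.mk (MulAction.orbitRel H X) (h • x)) = _
  rw [h2, h3, mul_smul]

theorem card_free [Finite H] [Finite X] (hX : ∀ (h : H) (x : X), h • x = x → h = 1) :
    Nat.card X = Nat.card (MulAction.orbitRel.Quotient H X) * Nat.card H := by
  rw [← Nat.card_prod]
  symm
  refine Nat.card_congr (Equiv.ofBijective
    (fun p : MulAction.orbitRel.Quotient H X × H => p.2 • (Quotient.out p.1 : X)) ⟨?_, ?_⟩)
  · rintro ⟨a, g⟩ ⟨b, h⟩ hab
    have hab' : g • (Quotient.out a : X) = h • (Quotient.out b : X) := hab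
    have h1 : a = b := by
      rw [← Quotient.out_eq a, ← Quotient.out_eq b]
      refine Quotient.sound ⟨g⁻¹ * h, ?_⟩
      show (g⁻¹ * h) • (Quotient.out b : X) = Quotient.out a
      rw [mul_smul, ← hab', inv_smul_smul]
    subst h1
    rw [smul_inj_free hX hab']
  · intro x
    obtain ⟨ψ, c, -, hc, -⟩ := equiv_lift (Y := X) hX (fun _ => x)
    exact ⟨(Quotient.mk (MulAction.orbitRel H X) x, c x), hc x⟩

end

theorem fe : S_FE := by
  intro H M X _ _ _ _ _ _ hX hfin O hO
  set B : Set M := {m : M | ∃ h : H, h ≠ 1 ∧ h • m = m} ∪ ⋃ h : H, (fun m => h • m) '' O with hB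
  have hBf : B.Finite := hfin.union (Set.finite_iUnion fun h => hO.image _)
  -- infinitely many good orbits
  set π : M → MulAction.orbitRel.Quotient H M := Quotient.mk (MulAction.orbitRel H M) with hπ
  have hinf : (π '' Bᶜ).Infinite := by
    intro hf
    have h1 : Bᶜ ⊆ ⋃ ω ∈ π '' Bᶜ, Set.range (fun h : H => h • (Quotient.out ω : M)) := by
      intro m hm
      refine Set.mem_biUnion (Set.mem_image_of_mem π hm) ?_
      have h2 : (MulAction.orbitRel H M).r (Quotient.out (π m)) m := Quotient.exact (Quotient.out_eq _)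
      obtain ⟨c, hc⟩ := (MulAction.orbitRel H M).symm h2
      exact ⟨c, hc⟩
    have h2 : (⋃ ω ∈ π '' Bᶜ, Set.range (fun h : H => h • (Quotient.out ω : M))).Finite :=
      hf.biUnion fun ω _ => Set.finite_range _
    exact (hBf.infinite_compl) (h2.subset h1)
  have hinf' : Infinite (π '' Bᶜ) := hinf.to_subtype
  obtain ⟨β⟩ : Nonempty (MulAction.orbitRel.Quotient H X ↪ (π '' Bᶜ)) := by
    obtain ⟨n, ⟨f⟩⟩ := Finite.exists_equiv_fin (MulAction.orbitRel.Quotient H X)
    exact ⟨(f.toEmbedding.trans Fin.valEmbedding).trans (Infinite.natEmbedding _)⟩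
  have hpt : ∀ ω, ∃ m : M, m ∉ B ∧ π m = β ω := by
    intro ω
    obtain ⟨m, hm, hm2⟩ := (β ω).2
    exact ⟨m, hm, hm2⟩
  choose α hαB hαπ using hpt
  obtain ⟨ψ, c, hψ, hc, hψc⟩ := equiv_lift hX α
  have hfree : ∀ (ω) (h : H), h • α ω = α ω → h = 1 := by
    intro ω h hh
    by_contra hne
    exact hαB ω (Or.inl ⟨h, hne, hh⟩)
  refine ⟨ψ, ?_, hψ, ?_, ?_⟩
  · intro x y hxy
    rw [hψc, hψc] at hxy
    have h1 : π (α (Quotient.mk (MulAction.orbitRel H X) x)) =
        π (α (Quotient.mk (MulAction.orbitRel H X) y)) := by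
      refine Quotient.sound ⟨(c x)⁻¹ * c y, ?_⟩
      show ((c x)⁻¹ * c y) • α (Quotient.mk (MulAction.orbitRel H X) y) = _
      rw [mul_smul, ← hxy, inv_smul_smul]
    rw [hαπ, hαπ] at h1
    have h2 := β.injective (Subtype.ext h1)
    have h3 : c x = c y := by
      rw [h2] at hxy
      have h4 : ((c y)⁻¹ * c x) • α (Quotient.mk (MulAction.orbitRel H X) y) =
          α (Quotient.mk (MulAction.orbitRel H X) y) := by
        rw [mul_smul, hxy, inv_smul_smul]
      have h5 := hfree _ _ h4
      rw [inv_mul_eq_one] at h5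
      exact h5.symm
    rw [← hc x, ← hc y, h2, h3]
  · intro x hx
    rw [hψc] at hx
    refine hαB (Quotient.mk (MulAction.orbitRel H X) x) (Or.inr ?_)
    refine Set.mem_iUnion.2 ⟨(c x)⁻¹, _, hx, ?_⟩
    exact inv_smul_smul _ _
  · intro x h hh
    rw [hψc] at hh
    have h1 : ((c x)⁻¹ * (h * c x)) • α (Quotient.mk (MulAction.orbitRel H X) x) =
        α (Quotient.mk (MulAction.orbitRel H X) x) := by
      rw [mul_smul, mul_smul, hh, inv_smul_smul]
    have h2 := hfree _ _ h1
    rw [inv_mul_eq_one] at h2
    have h3 : h * c x = 1 * c x := by rw [one_mul]; exact h2.symm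
    exact mul_right_cancel h3

theorem fi : S_FI := by
  intro H X Y _ _ _ _ _ _ hX hY hcard
  have h1 := card_free hX
  have h2 := card_free hY
  have hH : 0 < Nat.card H := Nat.card_pos
  have h3 : Nat.card (MulAction.orbitRel.Quotient H X) =
      Nat.card (MulAction.orbitRel.Quotient H Y) := by
    refine Nat.eq_of_mul_eq_mul_right hH ?_
    rw [← h1, ← h2, hcard]
  obtain ⟨β⟩ : Nonempty (MulAction.orbitRel.Quotient H X ≃ MulAction.orbitRel.Quotient H Y) :=
    ⟨(Finite.equivFin _).trans ((finCongr h3).trans (Finite.equivFin _).symm)⟩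
  obtain ⟨ψ, c, hψ, hc, hψc⟩ := equiv_lift hX (fun ω => (Quotient.out (β ω) : Y))
  have hinj : Injective ψ := by
    intro x y hxy
    rw [hψc, hψc] at hxy
    have h4 : β (Quotient.mk (MulAction.orbitRel H X) x) =
        β (Quotient.mk (MulAction.orbitRel H X) y) := by
      rw [← Quotient.out_eq (β (Quotient.mk (MulAction.orbitRel H X) x)),
        ← Quotient.out_eq (β (Quotient.mk (MulAction.orbitRel H X) y))]
      refine Quotient.sound ⟨(c x)⁻¹ * c y, ?_⟩
      show ((c x)⁻¹ * c y) • (Quotient.out (β (Quotient.mk (MulAction.orbitRel H X) y)) : Y) = _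
      rw [mul_smul, ← hxy, inv_smul_smul]
    have h5 := β.injective h4
    rw [h5] at hxy
    have h6 : c x = c y := smul_inj_free hY hxy
    rw [← hc x, ← hc y, h5, h6]
  have hbij : Bijective ψ := hinj.bijective_of_nat_card_le hcard.ge
  exact ⟨Equiv.ofBijective ψ hbij, hψ⟩

theorem exg : S_EXG := by
  intro k I ar 𝒞 G M J _ _ _ r r' hg hcls hinv hold
  refine ⟨hcls, hinv, ?_, ?_⟩
  · intro g a ha hga
    by_cases h : ∃ i x j, a i = Ex.new M x j
    · obtain ⟨i, x, j, hi⟩ := h
      have h1 := hga i
      rw [hi, Ex.smul_new] at h1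
      have h2 := (Ex.new_inj h1).1
      exact mul_eq_right.1 h2
    · have h1 : ∀ i, ∃ m, a i = Ex.old J m := by
        intro i
        rcases Ex.cases (a i) with h2 | ⟨x, j, h2⟩
        · exact h2
        · exact absurd ⟨i, x, j, h2⟩ h
      choose b hb using h1
      refine hg.shp g b (fun i j hij => ha (by rw [hb, hb, hij])) (fun i => ?_)
      have h2 := hga i
      rw [hb, Ex.smul_old] at h2
      exact Ex.old_inj h2
  · intro g D hD hgD hg1 w hw
    classical
    -- `w` is old
    obtain ⟨m, rfl⟩ : ∃ m, w = Ex.old J m := by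
      rcases Ex.cases w with h2 | ⟨x, j, rfl⟩
      · exact h2
      · rw [Ex.smul_new] at hw
        exact absurd (mul_eq_right.1 (Ex.new_inj hw).1) hg1
    rw [Ex.smul_old] at hw
    have hgm : g • m = m := Ex.old_inj hw
    have holdinj : Injective (Ex.old J : M → Ex G M J) := fun x y h => Ex.old_inj h
    -- old points of `D`
    set O : Finset M := D.preimage (Ex.old J) (holdinj.injOn) with hO
    have hOm : ∀ x, x ∈ O ↔ Ex.old J x ∈ D := fun x => by rw [hO, Finset.mem_preimage]
    have hgO : ∀ x ∈ O, g • x ∈ O := by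
      intro x hx
      rw [hOm] at hx ⊢
      have := hgD _ hx
      rwa [Ex.smul_old] at this
    by_cases hnew : ∃ x j, (Ex.new M x j : Ex G M J) ∈ D
    · obtain ⟨x0, j0, hx0⟩ := hnew
      -- `g` has finite order
      have hpow : ∀ (n : ℕ) (w : Ex G M J), w ∈ D → g ^ n • w ∈ D := by
        intro n
        induction n with
        | zero => intro w hw; rwa [pow_zero, one_smul]
        | succ n ih => intro w hw; rw [pow_succ', mul_smul]; exact hgD _ (ih w hw)
      have hfo : IsOfFinOrder g := by
        have h1 : ¬ Injective (fun n : ℕ => (⟨g ^ n • (Ex.new M x0 j0 : Ex G M J), hpow n _ hx0⟩ : D)) :=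
          not_injective_infinite_finite _
        unfold Injective at h1
        push Not at h1
        obtain ⟨a, b, hab, hne⟩ := h1
        have h2 := congrArg Subtype.val hab
        change g ^ a • (Ex.new M x0 j0 : Ex G M J) = g ^ b • Ex.new M x0 j0 at h2
        rw [Ex.smul_new, Ex.smul_new] at h2
        have h3 : g ^ a = g ^ b := mul_right_cancel (Ex.new_inj h2).1
        by_contra hnf
        exact hne (injective_pow_iff_not_isOfFinOrder.2 hnf h3)
      have hfinH : Finite (Subgroup.zpowers g) := by
        exact Nat.finite_of_card_ne_zero (by rw [Nat.card_zpowers]; exact hfo.orderOf_pos.ne')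
      have hzp : ∀ h ∈ Subgroup.zpowers g, ∃ n : ℕ, g ^ n = h := by
        intro h hh
        exact (hfo.mem_powers_iff_mem_zpowers.2 hh)
      -- the new points of `D`
      let N : SubMulAction (Subgroup.zpowers g) (Ex G M J) :=
        { carrier := {w | w ∈ D ∧ ∃ x j, w = Ex.new M x j}
          smul_mem' := by
            rintro ⟨h, hh⟩ w ⟨h1, x, j, rfl⟩
            obtain ⟨n, rfl⟩ := hzp h hh
            exact ⟨hpow n _ h1, g ^ n * x, j, rfl⟩ }
      have hNf : Finite N := by
        have : ({w | w ∈ D ∧ ∃ x j, w = Ex.new M x j} : Set (Ex G M J)).Finite :=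
          D.finite_toSet.subset fun w hw => hw.1
        exact this.to_subtype
      have hfreeN : ∀ (h : Subgroup.zpowers g) (x : N), h • x = x → h = 1 := by
        rintro ⟨h, hh⟩ ⟨w, hw, x, j, rfl⟩ h1
        have h2 := congrArg Subtype.val h1
        change h • (Ex.new M x j : Ex G M J) = Ex.new M x j at h2
        rw [Ex.smul_new] at h2
        have h3 : h = 1 := mul_eq_right.1 (Ex.new_inj h2).1
        exact Subtype.ext h3
      have hfix : {m : M | ∃ h : Subgroup.zpowers g, h ≠ 1 ∧ h • m = m}.Finite := by
        have h1 : {m : M | ∃ h : Subgroup.zpowers g, h ≠ 1 ∧ h • m = m} =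
            ⋃ h : Subgroup.zpowers g, {m : M | h ≠ 1 ∧ h • m = m} := by
          ext m
          simp
        rw [h1]
        refine Set.finite_iUnion fun h => ?_
        by_cases hh : h = 1
        · simp [hh]
        · by_contra hinf
          have hinf' : {m : M | h ≠ 1 ∧ h • m = m}.Infinite := hinf
          have := hinf'.to_subtype
          let emb := Infinite.natEmbedding {m : M | h ≠ 1 ∧ h • m = m}
          refine hh (Subtype.ext (hg.shp (h : G) (fun i : Fin k => ((emb i : _) : M)) ?_ ?_))
          · intro i j hij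
            exact Fin.ext (emb.injective (Subtype.ext hij))
          · intro i
            exact (emb i).2.2
      obtain ⟨ψ, hψi, hψe, hψO, hψf⟩ := fe (Subgroup.zpowers g) M N hfreeN hfix (O : Set M) O.finite_toSet
      have : Fintype N := Fintype.ofFinite N
      -- the set `D'`
      set D' : Finset M := O ∪ Finset.univ.image ψ with hD'
      have hcard : D'.card = k := by
        rw [hD', Finset.card_union_of_disjoint, Finset.card_image_of_injective _ hψi, Finset.card_univ,
          ← hD]
        · have h1 : (Finset.univ.image (fun x : N => (x : Ex G M J))).card = Fintype.card N :=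
            (Finset.card_image_of_injective _ Subtype.val_injective).trans Finset.card_univ
          have h2 : (O.image (Ex.old J : M → Ex G M J)).card = O.card :=
            Finset.card_image_of_injective _ holdinj
          rw [← h1, ← h2, ← Finset.card_union_of_disjoint]
          · congr 1
            ext w
            rw [Finset.mem_union, Finset.mem_image, Finset.mem_image]
            constructor
            · rintro (⟨x, hx, rfl⟩ | ⟨x, -, rfl⟩)
              · exact (hOm x).1 hx
              · exact x.2.1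
            · intro hw
              rcases Ex.cases w with ⟨x, rfl⟩ | ⟨x, j, rfl⟩
              · exact Or.inl ⟨x, (hOm x).2 hw, rfl⟩
              · exact Or.inr ⟨⟨_, hw, x, j, rfl⟩, Finset.mem_univ _, rfl⟩
          · rw [Finset.disjoint_left]
            intro w h3 h4
            obtain ⟨x, -, rfl⟩ := Finset.mem_image.1 h3
            obtain ⟨z, -, h5⟩ := Finset.mem_image.1 h4
            obtain ⟨-, y, j, h6⟩ := z.2
            exact Ex.old_ne_new (h5.symm.trans h6)
        · rw [Finset.disjoint_left]
          intro x h3 h4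
          obtain ⟨y, -, rfl⟩ := Finset.mem_image.1 h4
          exact hψO y h3
      have hgD' : ∀ x ∈ D', g • x ∈ D' := by
        intro x hx
        rw [hD', Finset.mem_union] at hx ⊢
        rcases hx with hx | hx
        · exact Or.inl (hgO x hx)
        · obtain ⟨y, -, rfl⟩ := Finset.mem_image.1 hx
          right
          refine Finset.mem_image.2 ⟨(⟨g, Subgroup.mem_zpowers g⟩ : Subgroup.zpowers g) • y,
            Finset.mem_univ _, ?_⟩
          rw [hψe]
          rfl
      have hmD := hg.fre g D' hcard hgD' hg1 m hgm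
      rw [hD', Finset.mem_union] at hmD
      rcases hmD with h | h
      · exact (hOm m).1 h
      · obtain ⟨y, -, rfl⟩ := Finset.mem_image.1 h
        have h1 := hψf y ⟨g, Subgroup.mem_zpowers g⟩ hgm
        exact absurd (congrArg Subtype.val h1) hg1
    · push Not at hnew
      have h1 : O.card = k := by
        rw [← hD, ← Finset.card_image_of_injective O holdinj]
        congr 1
        ext w
        rw [Finset.mem_image]
        constructor
        · rintro ⟨x, hx, rfl⟩
          exact (hOm x).1 hx
        · intro hw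
          rcases Ex.cases w with ⟨x, rfl⟩ | ⟨x, j, rfl⟩
          · exact ⟨x, (hOm x).2 hw, rfl⟩
          · exact absurd hw (hnew x j)
      exact (hOm m).1 (hg.fre g O h1 hgO hg1 m hgm)

end Pool.Agent.Q184.SK
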