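import Pool.Agent.Q32.SK.Stm

/-! Project SK (helper32): the direct limit of a chain of stages. -/

set_option autoImplicit false

namespace Pool.Agent.Q184.SK

open Function Q32.SK

section lim

variable {k : ℕ} {I : Type} {ar : I → ℕ} {𝒞 : Cls I ar} (A : ℕ → Stg k 𝒞)
  (e : ∀ n, Ext (A n) (A (n + 1)))

/-- transition maps -/
def tr (i j : ℕ) (h : i ≤ j) : Ext (A i) (A j) :=
  Nat.leRecOn (C := fun j => Ext (A i) (A j)) h (fun {m} x => x.comp (e m)) (Ext.idm (A i))

theorem tr_self (i : ℕ) : tr A e i i le_rfl = Ext.idm (A i) := Nat.leRecOn_self _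

theorem tr_succ {i j : ℕ} (h : i ≤ j) : tr A e i (j + 1) (h.trans (Nat.le_succ j)) =
    (tr A e i j h).comp (e j) := Nat.leRecOn_succ h _

theorem tr_ι {i j l : ℕ} (h1 : i ≤ j) (h2 : j ≤ l) (x : (A i).M) :
    (tr A e j l h2).ι ((tr A e i j h1).ι x) = (tr A e i l (h1.trans h2)).ι x := by
  induction l, h2 using Nat.le_induction with
  | base => rw [tr_self]; rfl
  | succ l h2 ih =>
    rw [tr_succ A e h2, tr_succ A e (h1.trans h2)]
    show (e l).ι ((tr A e j l h2).ι ((tr A e i j h1).ι x)) = _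
    rw [ih]
    rfl

theorem tr_φ {i j l : ℕ} (h1 : i ≤ j) (h2 : j ≤ l) (x : (A i).G) :
    (tr A e j l h2).φ ((tr A e i j h1).φ x) = (tr A e i l (h1.trans h2)).φ x := by
  induction l, h2 using Nat.le_induction with
  | base => rw [tr_self]; rfl
  | succ l h2 ih =>
    rw [tr_succ A e h2, tr_succ A e (h1.trans h2)]
    show (e l).φ ((tr A e j l h2).φ ((tr A e i j h1).φ x)) = _
    rw [ih]
    rfl

/-- the maps of the groups -/
def fG (i j : ℕ) (h : i ≤ j) : (A i).G →* (A j).G := (tr A e i j h).φ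

/-- the maps of the sets -/
def fM (i j : ℕ) (h : i ≤ j) : (A i).M ↪ (A j).M := ⟨(tr A e i j h).ι, (tr A e i j h).inj⟩

instance dG : DirectedSystem (fun i => (A i).G) (fG A e · · ·) where
  map_self i x := by
    show (tr A e i i le_rfl).φ x = x
    rw [tr_self]; rfl
  map_map l j i hij hjl x := tr_φ A e hij hjl x

instance dM : DirectedSystem (fun i => (A i).M) (fM A e · · ·) where
  map_self i x := by
    show (tr A e i i le_rfl).ι x = x
    rw [tr_self]; rfl
  map_map l j i hij hjl x := tr_ι A e hij hjl x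

/-- the limit group -/
def LG : Type := DirectLimit (fun i => (A i).G) (fG A e)

/-- the limit set -/
def LM : Type := DirectLimit (fun i => (A i).M) (fM A e)

noncomputable instance : Group (LG A e) :=
  inferInstanceAs (Group (DirectLimit (fun i => (A i).G) (fG A e)))

/-- the map from a stage -/
noncomputable def EG (n : ℕ) : (A n).G →* LG A e where
  toFun g := (⟦⟨n, g⟩⟧ : DirectLimit (fun i => (A i).G) (fG A e))
  map_one' := (DirectLimit.one_def (G := fun i => (A i).G) (f := fG A e) n).symm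
  map_mul' x y := (DirectLimit.mul_def (G := fun i => (A i).G) (f := fG A e) n x y).symm

/-- the map from a stage -/
def EM (n : ℕ) (x : (A n).M) : LM A e := (⟦⟨n, x⟩⟧ : DirectLimit (fun i => (A i).M) (fM A e))

theorem EM_inj (n : ℕ) : Injective (EM A e n) :=
  DirectLimit.mk_injective (f := fM A e) (fun i j h => (fM A e i j h).injective) n

theorem EM_tr {i j : ℕ} (h : i ≤ j) (x : (A i).M) : EM A e j ((tr A e i j h).ι x) = EM A e i x :=
  DirectLimit.mk_apply (F := fun i => (A i).M) (f := fM A e) i j x h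

theorem EG_tr {i j : ℕ} (h : i ≤ j) (x : (A i).G) : EG A e j ((tr A e i j h).φ x) = EG A e i x :=
  DirectLimit.mk_apply (F := fun i => (A i).G) (f := fG A e) i j x h

theorem EM_surj (z : LM A e) : ∃ n x, EM A e n x = z := by
  obtain ⟨n, x, h⟩ := DirectLimit.exists_eq_mk (F := fun i => (A i).M) (fM A e) z
  exact ⟨n, x, h.symm⟩

theorem EG_surj (z : LG A e) : ∃ n x, EG A e n x = z := by
  obtain ⟨n, x, h⟩ := DirectLimit.exists_eq_mk (F := fun i => (A i).G) (fG A e) z
  exact ⟨n, x, h.symm⟩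

theorem EM_surj' (z : LM A e) : ∃ n, ∀ m, n ≤ m → ∃ x, EM A e m x = z := by
  obtain ⟨n, x, h⟩ := EM_surj A e z
  exact ⟨n, fun m hm => ⟨_, (EM_tr A e hm x).trans h⟩⟩

theorem EG_surj' (z : LG A e) : ∃ n, ∀ m, n ≤ m → ∃ x, EG A e m x = z := by
  obtain ⟨n, x, h⟩ := EG_surj A e z
  exact ⟨n, fun m hm => ⟨_, (EG_tr A e hm x).trans h⟩⟩

/-- finitely many elements come from one stage -/
theorem EM_fin {J : Type} [Finite J] (v : J → LM A e) : ∃ n, ∀ m, n ≤ m → ∃ w : J → (A m).M,
    ∀ l, EM A e m (w l) = v l := by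
  choose n hn using fun l => EM_surj' A e (v l)
  obtain ⟨N, hN⟩ := (Set.finite_range n).bddAbove
  refine ⟨N, fun m hm => ?_⟩
  choose w hw using fun l => hn l m ((hN ⟨l, rfl⟩).trans hm)
  exact ⟨w, hw⟩

/-- the action -/
noncomputable def act (g : LG A e) (x : LM A e) : LM A e :=
  DirectLimit.map₂ (fG A e) (fM A e) (fM A e) (fun i (g : (A i).G) (x : (A i).M) => g • x)
    (fun i j h g x => (tr A e i j h).eqv g x) g x

theorem act_mk (n : ℕ) (g : (A n).G) (x : (A n).M) :
    act A e (EG A e n g) (EM A e n x) = EM A e n (g • x) :=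
  DirectLimit.map₂_def (F₁ := fun i => (A i).G) (F₂ := fun i => (A i).M) (F := fun i => (A i).M)
    (fG A e) (fM A e) (fM A e) _ _ n g x

noncomputable instance : MulAction (LG A e) (LM A e) where
  smul := act A e
  one_smul x := by
    obtain ⟨n, y, rfl⟩ := EM_surj A e x
    show act A e 1 (EM A e n y) = _
    rw [← map_one (EG A e n), act_mk, one_smul]
  mul_smul g h x := by
    obtain ⟨n1, h1⟩ := EG_surj' A e g
    obtain ⟨n2, h2⟩ := EG_surj' A e h
    obtain ⟨n3, h3⟩ := EM_surj' A e x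
    obtain ⟨g, rfl⟩ := h1 (n1 + n2 + n3) (by omega)
    obtain ⟨h, rfl⟩ := h2 (n1 + n2 + n3) (by omega)
    obtain ⟨x, rfl⟩ := h3 (n1 + n2 + n3) (by omega)
    show act A e (_ * _) _ = act A e _ (act A e _ _)
    rw [← map_mul, act_mk, act_mk, act_mk, mul_smul]

theorem smul_mk (n : ℕ) (g : (A n).G) (x : (A n).M) :
    EG A e n g • EM A e n x = EM A e n (g • x) := act_mk A e n g x

/-- the structure -/
def LR : Str I ar (LM A e) := fun i v => ∃ (n : ℕ) (w : Fin (ar i) → (A n).M),
  (∀ l, EM A e n (w l) = v l) ∧ (A n).r i w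

theorem LR_iff (n : ℕ) (i : I) (w : Fin (ar i) → (A n).M) :
    LR A e i (fun l => EM A e n (w l)) ↔ (A n).r i w := by
  constructor
  · rintro ⟨m, w', h1, h2⟩
    have e1 : (A (n + m)).r i (fun l => (tr A e m (n + m) (by omega)).ι (w' l)) ↔ (A m).r i w' := by
      have := congrFun (congrFun (tr A e m (n + m) (by omega)).str i) w'
      exact iff_of_eq this
    have e2 : (A (n + m)).r i (fun l => (tr A e n (n + m) (by omega)).ι (w l)) ↔ (A n).r i w := by
      have := congrFun (congrFun (tr A e n (n + m) (by omega)).str i) w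
      exact iff_of_eq this
    rw [← e2]
    rw [← e1] at h2
    have e3 : (fun l => (tr A e n (n + m) (by omega)).ι (w l)) =
        fun l => (tr A e m (n + m) (by omega)).ι (w' l) := by
      funext l
      refine EM_inj A e (n + m) ?_
      rw [EM_tr, EM_tr, h1]
    rw [e3]
    exact h2
  · intro h
    exact ⟨n, w, fun l => rfl, h⟩

theorem LR_pull (n : ℕ) : (LR A e).pull (EM A e n) = (A n).r := by
  funext i w
  exact propext (LR_iff A e n i w)

theorem good_lim : Good k 𝒞 (LG A e) (LM A e) (LR A e) := by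
  refine ⟨?_, ?_, ?_, ?_⟩
  · refine 𝒞.loc _ _ fun s hs => ?_
    have := hs.to_subtype
    obtain ⟨n, hn⟩ := EM_fin A e (Subtype.val : s → LM A e)
    obtain ⟨w, hw⟩ := hn n le_rfl
    have h1 := 𝒞.pull s (A n).M w (A n).r (fun x y hxy => by
      apply Subtype.ext
      rw [← hw x, ← hw y, hxy]) (A n).good.cls
    rw [← LR_pull A e n] at h1
    have h2 : ((LR A e).pull (EM A e n)).pull w = (LR A e).pull (Subtype.val : s → LM A e) := by
      rw [Str.pull_pull]
      congr 1
      funext x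
      exact hw x
    rwa [h2] at h1
  · intro g
    funext i v
    apply propext
    obtain ⟨n1, h1⟩ := EG_surj' A e g
    obtain ⟨n2, h2⟩ := EM_fin A e v
    obtain ⟨g, rfl⟩ := h1 (n1 + n2) (by omega)
    obtain ⟨w, hw⟩ := h2 (n1 + n2) (by omega)
    have h3 : v = fun l => EM A e (n1 + n2) (w l) := funext fun l => (hw l).symm
    subst h3
    show LR A e i (fun l => EG A e (n1 + n2) g • EM A e (n1 + n2) (w l)) ↔ _
    simp only [smul_mk]
    rw [LR_iff, LR_iff]
    exact iff_of_eq (congrFun (congrFun ((A (n1 + n2)).good.inv g) i) w)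
  · intro g a ha hga
    obtain ⟨n1, h1⟩ := EG_surj' A e g
    obtain ⟨n2, h2⟩ := EM_fin A e a
    obtain ⟨g, rfl⟩ := h1 (n1 + n2) (by omega)
    obtain ⟨w, hw⟩ := h2 (n1 + n2) (by omega)
    have h3 := (A (n1 + n2)).good.shp g w (fun x y hxy => ha (by rw [← hw, ← hw, hxy])) (fun i => by
      refine EM_inj A e (n1 + n2) ?_
      rw [← smul_mk, hw]
      exact hga i)
    rw [h3, map_one]
  · intro g D hD hgD hg1 x hx
    classical
    obtain ⟨n1, h1⟩ := EG_surj' A e g
    obtain ⟨n2, h2⟩ := EM_fin A e (Subtype.val : D → LM A e)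
    obtain ⟨n3, h3⟩ := EM_surj' A e x
    obtain ⟨N, hN1, hN2, hN3⟩ : ∃ N, n1 ≤ N ∧ n2 ≤ N ∧ n3 ≤ N :=
      ⟨n1 + n2 + n3, by omega, by omega, by omega⟩
    obtain ⟨g, rfl⟩ := h1 N hN1
    obtain ⟨w, hw⟩ := h2 N hN2
    obtain ⟨x, rfl⟩ := h3 N hN3
    set D' : Finset (A N).M := D.preimage (EM A e N) (EM_inj A e N).injOn with hD'
    have hm : ∀ y, y ∈ D' ↔ EM A e N y ∈ D := fun y => by rw [hD', Finset.mem_preimage]
    have himg : D'.image (EM A e N) = D := by
      ext y
      rw [Finset.mem_image]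
      constructor
      · rintro ⟨z, hz, rfl⟩
        exact (hm z).1 hz
      · intro hy
        exact ⟨w ⟨y, hy⟩, (hm _).2 (by rw [hw ⟨y, hy⟩]; exact hy), hw ⟨y, hy⟩⟩
    have hcard : D'.card = k :=
      (Finset.card_image_of_injective _ (EM_inj A e N)).symm.trans (by rw [himg]; exact hD)
    refine (hm x).1 ((A N).good.fre g D' hcard (fun y hy => ?_) ?_ x ?_)
    · rw [hm] at hy ⊢
      have := hgD _ hy
      rwa [smul_mk] at this
    · rintro rfl
      exact hg1 (map_one _)
    · refine EM_inj A e N ?_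
      rw [← smul_mk]
      exact hx

instance : Countable (LG A e) := inferInstanceAs (Countable (Quotient _))

instance : Countable (LM A e) := inferInstanceAs (Countable (Quotient _))

instance : Infinite (LM A e) := Infinite.of_injective _ (EM_inj A e 0)

/-- the limit -/
noncomputable def LS : Stg k 𝒞 where
  G := LG A e
  M := LM A e
  r := LR A e
  good := good_lim A e

/-- the extension -/
noncomputable def LE (n : ℕ) : Ext (A n) (LS A e) where
  φ := EG A e n
  ι := EM A e n
  inj := EM_inj A e n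
  eqv g x := (smul_mk A e n g x).symm
  str := LR_pull A e n

end lim

theorem lim : S_LIM := by
  intro k I ar 𝒞 A e
  refine ⟨LS A e, LE A e, ?_, ?_, ?_, ?_⟩
  · intro n x
    have h1 := EM_tr A e (Nat.le_succ n) x
    rw [show (tr A e n (n.succ) (Nat.le_succ n)) = (Ext.idm (A n)).comp (e n) by
      rw [← tr_self A e n]; exact tr_succ A e le_rfl] at h1
    exact h1
  · intro n x
    have h1 := EG_tr A e (Nat.le_succ n) x
    rw [show (tr A e n (n.succ) (Nat.le_succ n)) = (Ext.idm (A n)).comp (e n) by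
      rw [← tr_self A e n]; exact tr_succ A e le_rfl] at h1
    exact h1
  · intro x
    exact EM_surj A e x
  · intro g
    exact EG_surj A e g

end Pool.Agent.Q184.SK
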