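import Pool.Agent.Q32.SK.Stm

/-! Project SK (helper32): rich extensions. -/

set_option autoImplicit false

namespace Pool.Agent.Q184.SK

open Function Q32.SK

section emb
variable {G M G' M' : Type}

/-- the map of the extended sets -/
def emb (φ : G → G') (ι : M → M') : Ex G M Unit → Ex G' M' Unit :=
  Sum.map ι (fun p => (φ p.1, p.2))

theorem emb_old (φ : G → G') (ι : M → M') (x : M) :
    emb φ ι (Ex.old Unit x) = Ex.old Unit (ι x) := rfl

theorem emb_new (φ : G → G') (ι : M → M') (g : G) (j : Unit) :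
    emb φ ι (Ex.new M g j) = Ex.new M' (φ g) j := rfl

theorem emb_inj {φ : G → G'} {ι : M → M'} (hφ : Injective φ) (hι : Injective ι) :
    Injective (emb φ ι) := by
  intro a b h
  rcases Ex.cases a with ⟨x, rfl⟩ | ⟨g, j, rfl⟩ <;> rcases Ex.cases b with ⟨y, rfl⟩ | ⟨g', j', rfl⟩
  · rw [emb_old, emb_old] at h
    rw [hι (Ex.old_inj h)]
  · rw [emb_old, emb_new] at h
    exact (Ex.old_ne_new h).elim
  · rw [emb_old, emb_new] at h
    exact (Ex.old_ne_new h.symm).elim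
  · rw [emb_new, emb_new] at h
    obtain ⟨h1, h2⟩ := Ex.new_inj h
    rw [hφ h1, h2]

end emb

section
variable {k : ℕ} {I : Type} {ar : I → ℕ} {𝒞 : Cls I ar}

theorem phi_inj {A B : Stg k 𝒞} (e : Ext A B) : Injective e.φ := by
  rw [injective_iff_map_eq_one]
  intro g hg
  refine A.good.shp g (fun i : Fin k => Infinite.natEmbedding A.M i) ?_ (fun i => e.inj ?_)
  · intro i j hij
    exact Fin.ext ((Infinite.natEmbedding A.M).injective hij)
  · rw [e.eqv, hg, one_smul]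

theorem emb_smul {A B : Stg k 𝒞} (e : Ext A B) (g : A.G) (w : Ex A.G A.M Unit) :
    emb e.φ e.ι (g • w) = e.φ g • emb e.φ e.ι w := by
  rcases Ex.cases w with ⟨x, rfl⟩ | ⟨h, j, rfl⟩
  · rw [Ex.smul_old, emb_old, emb_old, Ex.smul_old, e.eqv]
  · rw [Ex.smul_new, emb_new, emb_new, Ex.smul_new, map_mul]

theorem mem_push {A B : Stg k 𝒞} (e : Ext A B) {S : Subgroup A.G} {C : Set A.M}
    {w : Ex B.G B.M Unit} : w ∈ Zs (S.map e.φ) (e.ι '' C) Unit ↔
      ∃ u ∈ Zs S C Unit, emb e.φ e.ι u = w := by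
  constructor
  · rintro (⟨c, ⟨x, hx, rfl⟩, rfl⟩ | ⟨s, hs, j, rfl⟩)
    · exact ⟨Ex.old Unit x, Or.inl ⟨x, hx, rfl⟩, rfl⟩
    · obtain ⟨t, ht, rfl⟩ := hs
      exact ⟨Ex.new A.M t j, Or.inr ⟨t, ht, j, rfl⟩, rfl⟩
  · rintro ⟨u, (⟨c, hc, rfl⟩ | ⟨s, hs, j, rfl⟩), rfl⟩
    · exact Or.inl ⟨e.ι c, ⟨c, hc, rfl⟩, rfl⟩
    · exact Or.inr ⟨e.φ s, ⟨s, hs, rfl⟩, j, rfl⟩

theorem smul_mem_Zs {G M : Type} [Group G] [MulAction G M] {S : Subgroup G} {C : Set M}
    (hC : ∀ s ∈ S, ∀ c ∈ C, s • c ∈ C) {s : G} (hs : s ∈ S) {w : Ex G M Unit}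
    (hw : w ∈ Zs S C Unit) : s • w ∈ Zs S C Unit := by
  rcases hw with ⟨c, hc, rfl⟩ | ⟨t, ht, j, rfl⟩
  · exact Or.inl ⟨s • c, hC s hs c hc, Ex.smul_old s c⟩
  · exact Or.inr ⟨s * t, S.mul_mem hs ht, j, Ex.smul_new s t j⟩

/-- admissible data can be pushed forward -/
theorem adm_push {A B : Stg k 𝒞} (e : Ext A B) {S : Subgroup A.G} {C : Set A.M}
    {D : Str I ar (Ex A.G A.M Unit)} (h : Adm 𝒞 A.r S C D) :
    ∃ D₁ : Str I ar (Ex B.G B.M Unit), Adm 𝒞 B.r (S.map e.φ) (e.ι '' C) D₁ ∧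
      ∀ (i : I) (v : Fin (ar i) → Ex A.G A.M Unit), (∀ l, v l ∈ Zs S C Unit) →
        (D₁ i (fun l => emb e.φ e.ι (v l)) ↔ D i v) := by
  have hinj : Injective (emb e.φ e.ι) := emb_inj (phi_inj e) e.inj
  let D₁ : Str I ar (Ex B.G B.M Unit) := fun i v => ∃ u : Fin (ar i) → Ex A.G A.M Unit,
    (∀ l, u l ∈ Zs S C Unit) ∧ (fun l => emb e.φ e.ι (u l)) = v ∧ D i u
  have key : ∀ (i : I) (v : Fin (ar i) → Ex A.G A.M Unit), (∀ l, v l ∈ Zs S C Unit) →
        (D₁ i (fun l => emb e.φ e.ι (v l)) ↔ D i v) := by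
    intro i v hv
    constructor
    · rintro ⟨u, hu, h1, h2⟩
      have h3 : u = v := funext fun l => hinj (congrFun h1 l)
      rwa [h3] at h2
    · intro h1
      exact ⟨v, hv, rfl, h1⟩
  refine ⟨D₁, ⟨?_, ?_, ?_, ?_, ?_, ?_⟩, key⟩
  · have := h.finS
    exact Set.Finite.image e.φ (Set.toFinite (S : Set A.G))
  · exact h.finC.image _
  · rintro s ⟨t, ht, rfl⟩ c ⟨x, hx, rfl⟩
    exact ⟨t • x, h.inv t ht x hx, e.eqv t x⟩
  · choose β hβ1 hβ2 using fun w : Zs (S.map e.φ) (e.ι '' C) Unit => (mem_push e).1 w.2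
    have h1 := 𝒞.pull _ _ (fun w => (⟨β w, hβ1 w⟩ : Zs S C Unit)) _ (fun a b hab => by
      have h2 : β a = β b := congrArg Subtype.val hab
      apply Subtype.ext
      rw [← hβ2 a, ← hβ2 b, h2]) h.cls
    have h2 : ((D.pull (Subtype.val : Zs S C Unit → _)).pull (fun w => (⟨β w, hβ1 w⟩ : Zs S C Unit))) =
        D₁.pull (Subtype.val : Zs (S.map e.φ) (e.ι '' C) Unit → _) := by
      funext i v
      apply propext
      show D i (fun l => β (v l)) ↔ D₁ i (fun l => (v l : Ex B.G B.M Unit))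
      rw [← key i (fun l => β (v l)) (fun l => hβ1 _)]
      have h3 : (fun l => emb e.φ e.ι (β (v l))) = fun l => (v l : Ex B.G B.M Unit) :=
        funext fun l => hβ2 _
      rw [h3]
    rwa [h2] at h1
  · rintro s ⟨t, ht, rfl⟩ i v hv
    choose u hu1 hu2 using fun l => (mem_push e).1 (hv l)
    have h1 : v = fun l => emb e.φ e.ι (u l) := funext fun l => (hu2 l).symm
    subst h1
    rw [key i u hu1, ← h.Dinv t ht i u hu1, ← key i _ (fun l => smul_mem_Zs h.inv ht (hu1 l))]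
    simp only [emb_smul]
  · intro i v hv
    choose u hu1 hu2 using hv
    have h1 : v = fun l => e.ι (u l) := funext fun l => (hu2 l).symm
    subst h1
    have h2 := key i (fun l => Ex.old Unit (u l)) (fun l => Or.inl ⟨u l, hu1 l, rfl⟩)
    have h3 := h.Dr i u hu1
    have h4 : B.r i (fun l => e.ι (u l)) ↔ A.r i u := iff_of_eq (congrFun (congrFun e.str i) u)
    rw [h4, ← h3, ← h2]
    rfl

/-- admissible data can be pulled back -/
theorem adm_pull {A W : Stg k 𝒞} (E : Ext A W) {S : Subgroup W.G} {C : Set W.M}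
    {D : Str I ar (Ex W.G W.M Unit)} (h : Adm 𝒞 W.r S C D) :
    Adm 𝒞 A.r (S.comap E.φ) (E.ι ⁻¹' C) (D.pull (emb E.φ E.ι)) := by
  have hinj : Injective (emb E.φ E.ι) := emb_inj (phi_inj E) E.inj
  have hmem : ∀ w ∈ Zs (S.comap E.φ) (E.ι ⁻¹' C) Unit, emb E.φ E.ι w ∈ Zs S C Unit := by
    rintro w (⟨c, hc, rfl⟩ | ⟨s, hs, j, rfl⟩)
    · exact Or.inl ⟨E.ι c, hc, rfl⟩
    · exact Or.inr ⟨E.φ s, hs, j, rfl⟩
  refine ⟨?_, ?_, ?_, ?_, ?_, ?_⟩
  · have := h.finS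
    have h5 : Set.Finite (E.φ ⁻¹' (S : Set W.G)) :=
      (Set.toFinite (S : Set W.G)).preimage (phi_inj E).injOn
    exact h5.to_subtype
  · exact h.finC.preimage E.inj.injOn
  · intro s hs c hc
    show E.ι (s • c) ∈ C
    rw [E.eqv]
    exact h.inv _ hs _ hc
  · have h1 := 𝒞.pull _ _ (fun w : Zs (S.comap E.φ) (E.ι ⁻¹' C) Unit =>
      (⟨emb E.φ E.ι w, hmem w w.2⟩ : Zs S C Unit)) _ (fun a b hab =>
        Subtype.ext (hinj (congrArg Subtype.val hab))) h.cls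
    exact h1
  · intro s hs i v hv
    have h1 := h.Dinv (E.φ s) hs i (fun l => emb E.φ E.ι (v l)) (fun l => hmem _ (hv l))
    show D i (fun l => emb E.φ E.ι (s • v l)) ↔ _
    simp only [emb_smul]
    exact h1
  · intro i v hv
    have h1 := h.Dr i (fun l => E.ι (v l)) hv
    have h4 : W.r i (fun l => E.ι (v l)) ↔ A.r i v := iff_of_eq (congrFun (congrFun E.str i) v)
    rw [← h4, ← h1]
    rfl

/-- tasks -/
def Tsk (A : Stg k 𝒞) : Type :=
  Finset A.M × (Σ n : ℕ, {r : Str I ar (Fin n) // 𝒞.K (Fin n) r} × (Fin n → Ex A.G A.M Unit))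

theorem tsk_countable (A : Stg k 𝒞) : Countable (Tsk A) := by
  have h1 : Countable (Ex A.G A.M Unit) := inferInstanceAs (Countable (A.M ⊕ (A.G × Unit)))
  have h2 : ∀ n : ℕ, Countable {r : Str I ar (Fin n) // 𝒞.K (Fin n) r} := fun n =>
    (𝒞.cnt n).to_subtype
  unfold Tsk
  infer_instance

/-- the evaluation -/
def qm {A B : Stg k 𝒞} (e : Ext A B) (y : B.M) : Ex A.G A.M Unit → B.M :=
  Sum.elim e.ι (fun p => e.φ p.1 • y)

/-- the task is done -/
def Done {A B : Stg k 𝒞} (e : Ext A B) (τ : Tsk A) : Prop :=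
  (∃ (S : Subgroup A.G) (C : Set A.M) (D : Str I ar (Ex A.G A.M Unit)), Adm 𝒞 A.r S C D ∧
    Injective τ.2.2.2 ∧ Set.range τ.2.2.2 = Zs S C Unit ∧
    ∀ (i : I) (v : Fin (ar i) → Fin τ.2.1), (τ.2.2.1.1 i v ↔ D i (fun l => τ.2.2.2 (v l)))) →
  ∃ y : B.M, (∀ g : B.G, g • y = y → g = 1) ∧ (∀ g : B.G, ∀ x ∈ τ.1, g • y ≠ e.ι x) ∧
    ∀ (i : I) (v : Fin (ar i) → Fin τ.2.1),
      (τ.2.2.1.1 i v ↔ B.r i (fun l => qm e y (τ.2.2.2 (v l))))

theorem perf (hEXG : S_EXG) (hEAP : EAP k 𝒞) {A B : Stg k 𝒞} (e : Ext A B) (τ : Tsk A) :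
    ∃ (C : Stg k 𝒞) (f : Ext B C), Surjective f.φ ∧ Done (e.comp f) τ := by
  obtain ⟨F, n, ⟨r₀, hr₀⟩, z⟩ := τ
  by_cases hV : ∃ (S : Subgroup A.G) (C : Set A.M) (D : Str I ar (Ex A.G A.M Unit)),
      Adm 𝒞 A.r S C D ∧ Injective z ∧ Set.range z = Zs S C Unit ∧
      ∀ (i : I) (v : Fin (ar i) → Fin n), (r₀ i v ↔ D i (fun l => z (v l)))
  · obtain ⟨S, C, D, hadm, hz, hrz, hrD⟩ := hV
    obtain ⟨D₁, hadm₁, hD₁⟩ := adm_push e hadm
    obtain ⟨r', hc, hinv, hold, hr'⟩ := hEAP B.G B.M B.r B.good Unit _ _ D₁ hadm₁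
    have hgood := hEXG k I ar 𝒞 B.G B.M Unit B.r r' B.good hc hinv hold
    have h1 : Countable (Ex B.G B.M Unit) := inferInstanceAs (Countable (B.M ⊕ (B.G × Unit)))
    have h2 : Infinite (Ex B.G B.M Unit) := Infinite.of_injective (Ex.old Unit) fun x y h => Ex.old_inj h
    let B' : Stg k 𝒞 := { G := B.G, M := Ex B.G B.M Unit, r := r', good := hgood }
    let f : Ext B B' := { φ := MonoidHom.id B.G, ι := Ex.old Unit, inj := fun x y h => Ex.old_inj h,
                          eqv := fun g x => rfl, str := hold }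
    refine ⟨B', f, fun g => ⟨g, rfl⟩, fun _ => ⟨(Ex.new B.M 1 () : Ex B.G B.M Unit), ?_, ?_, ?_⟩⟩
    · intro g hg
      change B.G at g
      have h3 : g • (Ex.new B.M 1 () : Ex B.G B.M Unit) = Ex.new B.M 1 () := hg
      rw [Ex.smul_new] at h3
      have h4 := (Ex.new_inj h3).1
      rwa [mul_one] at h4
    · intro g x hx h3
      change B.G at g
      have h4 : g • (Ex.new B.M 1 () : Ex B.G B.M Unit) = Ex.old Unit (e.ι x) := h3
      rw [Ex.smul_new] at h4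
      exact Ex.old_ne_new h4.symm
    · intro i v
      have hzm : ∀ l, z (v l) ∈ Zs S C Unit := fun l => by rw [← hrz]; exact ⟨_, rfl⟩
      show r₀ i v ↔ r' i (fun l => qm (e.comp f) (Ex.new B.M 1 () : Ex B.G B.M Unit) (z (v l)))
      have h3 : ∀ w : Ex A.G A.M Unit, qm (e.comp f) (Ex.new B.M 1 () : Ex B.G B.M Unit) w =
          emb e.φ e.ι w := by
        intro w
        rcases Ex.cases w with ⟨x, rfl⟩ | ⟨g, j, rfl⟩
        · rfl
        · show e.φ g • (Ex.new B.M 1 () : Ex B.G B.M Unit) = Ex.new B.M (e.φ g) j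
          rw [Ex.smul_new, mul_one]
      simp only [h3]
      rw [hrD, hr' i (fun l => emb e.φ e.ι (z (v l))) (fun l => (mem_push e).2 ⟨_, hzm l, rfl⟩),
        hD₁ i (fun l => z (v l)) hzm]
  · exact ⟨B, Ext.idm B, fun g => ⟨g, rfl⟩, fun h => absurd h hV⟩

end

theorem ric : S_RIC := by
  intro hBOOK hLIM hEXG k I ar 𝒞 hEAP A₀
  obtain ⟨A, e, rfl, hQ, hdone⟩ := hBOOK (Stg k 𝒞) Ext Ext.idm (fun e f => e.comp f) Tsk tsk_countable
    Done (fun e => Surjective e.φ) (fun A g => ⟨g, rfl⟩) (fun e τ => perf hEXG hEAP e τ) A₀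
  obtain ⟨W, E, hι, hφ, hsM, hsG⟩ := hLIM k I ar 𝒞 A e
  set ct : ∀ n m, Ext (A n) (A (n + m)) := fun n m => cto Ext.idm (fun e f => e.comp f) A e n m with hct
  have hcι : ∀ n m x, (E (n + m)).ι ((ct n m).ι x) = (E n).ι x := by
    intro n m
    induction m with
    | zero => intro x; rfl
    | succ m ih =>
      intro x
      show (E (n + m + 1)).ι ((e (n + m)).ι ((ct n m).ι x)) = _
      rw [hι, ih]
  have hcφ : ∀ n m x, (E (n + m)).φ ((ct n m).φ x) = (E n).φ x := by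
    intro n m
    induction m with
    | zero => intro x; rfl
    | succ m ih =>
      intro x
      show (E (n + m + 1)).φ ((e (n + m)).φ ((ct n m).φ x)) = _
      rw [hφ, ih]
  have hcs : ∀ n m, Surjective (ct n m).φ := by
    intro n m
    induction m with
    | zero => intro x; exact ⟨x, rfl⟩
    | succ m ih =>
      intro x
      obtain ⟨y, hy⟩ := hQ (n + m) x
      obtain ⟨z, hz⟩ := ih y
      refine ⟨z, ?_⟩
      show (e (n + m)).φ ((ct n m).φ z) = x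
      rw [hz, hy]
  have hEs : ∀ n, Surjective (E n).φ := by
    intro n g
    obtain ⟨j, h, rfl⟩ := hsG g
    -- compare the stages `j` and `n`
    rcases le_total j n with hjn | hjn
    · obtain ⟨m, rfl⟩ := Nat.exists_eq_add_of_le hjn
      exact ⟨(ct j m).φ h, hcφ j m h⟩
    · obtain ⟨m, rfl⟩ := Nat.exists_eq_add_of_le hjn
      obtain ⟨h'', rfl⟩ := hcs n m h
      exact ⟨h'', (hcφ n m h'').symm⟩
  refine ⟨W, E 0, hEs 0, ?_⟩
  intro S C D hadm F hF
  -- a stage which contains `C` and `F`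
  have hst : ∀ x : W.M, ∃ n, ∀ m, n ≤ m → x ∈ Set.range (E m).ι := by
    intro x
    obtain ⟨n, y, rfl⟩ := hsM x
    refine ⟨n, fun m hm => ?_⟩
    obtain ⟨l, rfl⟩ := Nat.exists_eq_add_of_le hm
    exact ⟨(ct n l).ι y, hcι n l y⟩
  choose N hN using hst
  obtain ⟨n, hn⟩ : ∃ n, ∀ x ∈ C ∪ F, x ∈ Set.range (E n).ι := by
    obtain ⟨n, hn⟩ := ((hadm.finC.union hF).image N).bddAbove
    exact ⟨n, fun x hx => hN x n (hn ⟨x, hx, rfl⟩)⟩
  have hadm' := adm_pull (E n) hadm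
  set S' := S.comap (E n).φ with hS'
  set C' := (E n).ι ⁻¹' C with hC'
  set D' : Str I ar (Ex (A n).G (A n).M Unit) := D.pull (emb (E n).φ (E n).ι) with hD'
  have hZf : (Zs S' C' Unit : Set (Ex (A n).G (A n).M Unit)).Finite := by
    have h1 := hadm'.finS
    have h2 : (Zs S' C' Unit : Set (Ex (A n).G (A n).M Unit)) ⊆
        (Ex.old Unit '' C') ∪ (fun s => Ex.new (A n).M s ()) '' (S' : Set (A n).G) := by
      rintro w (⟨c, hc, rfl⟩ | ⟨s, hs, j, rfl⟩)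
      · exact Or.inl ⟨c, hc, rfl⟩
      · exact Or.inr ⟨s, hs, rfl⟩
    exact ((hadm'.finC.image _).union ((Set.toFinite (S' : Set (A n).G)).image _)).subset h2
  have hZf' := hZf.to_subtype
  let eq := (Finite.equivFin (Zs S' C' Unit : Set (Ex (A n).G (A n).M Unit)))
  set q := Nat.card (Zs S' C' Unit : Set (Ex (A n).G (A n).M Unit)) with hq
  let z : Fin q → Ex (A n).G (A n).M Unit := fun l => (eq.symm l : Ex (A n).G (A n).M Unit)
  have hzi : Injective z := fun a b hab => eq.symm.injective (Subtype.ext hab)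
  have hzr : Set.range z = Zs S' C' Unit := by
    ext w
    constructor
    · rintro ⟨l, rfl⟩
      exact (eq.symm l).2
    · intro hw
      refine ⟨eq ⟨w, hw⟩, ?_⟩
      show ((eq.symm (eq ⟨w, hw⟩) : Zs S' C' Unit) : Ex (A n).G (A n).M Unit) = w
      rw [Equiv.symm_apply_apply]
  have hr₀ : 𝒞.K (Fin q) (D'.pull z) := by
    have h1 := 𝒞.pull _ _ (fun l : Fin q => (eq.symm l : (Zs S' C' Unit : Set _))) _
      eq.symm.injective hadm'.cls
    exact h1
  have hF' : ((E n).ι ⁻¹' F).Finite := hF.preimage (E n).inj.injOn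
  obtain ⟨m, hm⟩ := hdone n (hF'.toFinset, ⟨q, ⟨D'.pull z, hr₀⟩, z⟩)
  obtain ⟨y, hy1, hy2, hy3⟩ := hm ⟨S', C', D', hadm', hzi, hzr, fun i v => Iff.rfl⟩
  refine ⟨(E (n + m)).ι y, ?_, ?_, ?_⟩
  · intro g hg
    obtain ⟨h, rfl⟩ := hEs (n + m) g
    rw [← (E (n + m)).eqv] at hg
    rw [hy1 h ((E (n + m)).inj hg), map_one]
  · intro g hg
    obtain ⟨h, rfl⟩ := hEs (n + m) g
    obtain ⟨x, hx⟩ := hn _ (Or.inr hg)
    rw [← (E (n + m)).eqv] at hx hg
    have h1 : x ∈ hF'.toFinset := by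
      rw [Set.Finite.mem_toFinset]
      show (E n).ι x ∈ F
      rw [hx]
      exact hg
    refine hy2 h x h1 ((E (n + m)).inj ?_)
    rw [← hx]
    exact (hcι n m x).symm
  · intro i v hv
    -- lift `v` to the stage
    have hlift : ∀ l, ∃ w : Fin q, emb (E n).φ (E n).ι (z w) = v l := by
      intro l
      have h1 : ∃ u ∈ (Zs S' C' Unit : Set _), emb (E n).φ (E n).ι u = v l := by
        rcases hv l with ⟨c, hc, h2⟩ | ⟨s, hs, j, h2⟩
        · obtain ⟨x, hx⟩ := hn c (Or.inl hc)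
          refine ⟨Ex.old Unit x, Or.inl ⟨x, ?_, rfl⟩, ?_⟩
          · show (E n).ι x ∈ C
            rw [hx]; exact hc
          · rw [h2, emb_old, hx]
        · obtain ⟨t, rfl⟩ := hEs n s
          exact ⟨Ex.new (A n).M t j, Or.inr ⟨t, hs, j, rfl⟩, by rw [h2, emb_new]⟩
      obtain ⟨u, hu, h2⟩ := h1
      rw [← hzr] at hu
      obtain ⟨w, rfl⟩ := hu
      exact ⟨w, h2⟩
    choose w hw using hlift
    have h1 : v = fun l => emb (E n).φ (E n).ι (z (w l)) := funext fun l => (hw l).symm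
    subst h1
    have h2 := hy3 i w
    have h3 : W.r i (fun l => (E (n + m)).ι (qm (ct n m) y (z (w l)))) ↔
        (A (n + m)).r i (fun l => qm (ct n m) y (z (w l))) :=
      iff_of_eq (congrFun (congrFun (E (n + m)).str i) (fun l => qm (ct n m) y (z (w l))))
    have h4 : ∀ u : Ex (A n).G (A n).M Unit, evy ((E (n + m)).ι y) (emb (E n).φ (E n).ι u) =
        (E (n + m)).ι (qm (ct n m) y u) := by
      intro u
      rcases Ex.cases u with ⟨x, rfl⟩ | ⟨g, j, rfl⟩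
      · show (E n).ι x = (E (n + m)).ι ((ct n m).ι x)
        rw [hcι]
      · show (E n).φ g • (E (n + m)).ι y = (E (n + m)).ι ((ct n m).φ g • y)
        rw [(E (n + m)).eqv, hcφ]
    simp only [h4]
    rw [h3]
    exact h2

end Pool.Agent.Q184.SK
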